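import Pool.Agent.Helper10.GO.GoalsT
import Pool.Agent.Helper13.AD.EXA

/-!
# Project GO (MP_6af536_nt), packet GO-EXU: the exact functional is unique
-/

set_option autoImplicit false

open Filter Topology

namespace Pool.Agent.Helper82.GO

open Pool.Agent.Helper80.AD Pool.Agent.Helper10.GO
open Pool.Agent.Helper13.AD (all_slots_iter SS)

/-- the exact functional is multiplied by `2` in every slot -/
theorem exact_slots {k : ℕ} {B P : Type} {h : B → P → ℝ} {cst : P → ℝ} {Pr : AddSubgroup (P → ℝ)}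
    {sq : B → B} {E₀ : (Fin (k + 1) → B) → ℝ} {D : (Fin k → B) → ℝ} {G : ℝ}
    {E : (Fin (k + 1) → B) → ℝ} {C : ℝ} (hsq : ∀ b v, h (sq b) v = 2 * h b v)
    (H : ExData k h cst Pr E₀ D G E C) (Y : Fin (k + 1) → B) (i : Fin (k + 1)) (b : B) :
    E (Function.update Y i (sq b)) = 2 * E (Function.update Y i b) := by
  classical
  have h0 : ∀ (b : B) (z : Fin k → B), E (Fin.cons (sq b) z : Fin (k + 1) → B) =
      2 * E (Fin.cons b z : Fin (k + 1) → B) := by
    intro b z
    have h1 := H.pos 1 ![1, -2] ![sq b, b] 0 0 (zero_mem _) (by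
      intro v
      simp [Fin.sum_univ_two, hsq]) z
    have h2 := H.pos 1 ![-1, 2] ![sq b, b] 0 0 (zero_mem _) (by
      intro v
      simp [Fin.sum_univ_two, hsq]) z
    have e2 : ∀ f : Fin (1 + 1) → ℝ, ∑ i, f i = f 0 + f 1 := fun f => Fin.sum_univ_two f
    rw [e2] at h1 h2
    simp only [Matrix.cons_val_zero, Matrix.cons_val_one, Int.cast_zero,
      zero_mul, Int.cast_neg, Int.cast_one, Int.cast_ofNat, one_mul] at h1 h2
    linarith
  set σ : Equiv.Perm (Fin (k + 1)) := Equiv.swap 0 i with hσ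
  have e1 : ∀ c : B, Function.update Y i c ∘ σ =
      (Fin.cons c (Fin.tail (Y ∘ σ)) : Fin (k + 1) → B) := by
    intro c
    funext s
    refine Fin.cases ?_ (fun s => ?_) s
    · simp [hσ]
    · simp only [Function.comp_apply, Fin.cons_succ, Fin.tail]
      rw [Function.update_of_ne]
      intro h'
      have h2 : σ s.succ = σ 0 := by
        rw [h', hσ, Equiv.swap_apply_left]
      exact Fin.succ_ne_zero s (σ.injective h2)
  rw [← H.symE σ (Function.update Y i (sq b)), ← H.symE σ (Function.update Y i b), e1, e1]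
  exact h0 b _

theorem degree_slots {k : ℕ} {B P : Type} {h : B → P → ℝ} {cst : P → ℝ} {Pr : AddSubgroup (P → ℝ)}
    {sq : B → B} {E₀ : (Fin (k + 1) → B) → ℝ} {D : (Fin k → B) → ℝ} {G : ℝ}
    {E : (Fin (k + 1) → B) → ℝ} {C : ℝ} (hsq : ∀ b v, h (sq b) v = 2 * h b v)
    (H : ExData k h cst Pr E₀ D G E C) (z : Fin k → B) (l : Fin k) (b : B) :
    D (Function.update z l (sq b)) = 2 * D (Function.update z l b) := by
  have h1 := H.deg 1 ![1, -2] ![sq b, b] 0 0 (zero_mem _) (by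
    intro v
    simp [Fin.sum_univ_two, hsq]) z l
  have h2 := H.deg 1 ![-1, 2] ![sq b, b] 0 0 (zero_mem _) (by
    intro v
    simp [Fin.sum_univ_two, hsq]) z l
  simp [Fin.sum_univ_two] at h1 h2
  linarith

theorem exu : S_EXU := by
  intro k B P h cst cst' Pr sq E₀ D G G' E E' C C' hsq H H'
  funext Y
  have hE := fun j => all_slots_iter sq E (exact_slots hsq H) Y j
  have hE' := fun j => all_slots_iter sq E' (exact_slots hsq H') Y j
  have hSit : ∀ j : ℕ, ∑ i : Fin (k + 1), D (fun s => (fun s => sq^[j] (Y s)) (i.succAbove s)) =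
      (2 ^ k) ^ j * ∑ i : Fin (k + 1), D (fun s => Y (i.succAbove s)) := by
    intro j
    rw [Finset.mul_sum]
    refine Finset.sum_congr rfl fun i _ => ?_
    exact all_slots_iter sq D (degree_slots hsq H) (fun s => Y (i.succAbove s)) j
  set S : ℝ := ∑ i : Fin (k + 1), D (fun s => Y (i.succAbove s)) with hS
  have key : ∀ j : ℕ, (2 : ℝ) ^ j * |E Y - E' Y| ≤ (C + C') * S := by
    intro j
    have h1 := H.cmp (fun s => sq^[j] (Y s))
    have h2 := H'.cmp (fun s => sq^[j] (Y s))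
    rw [hSit j] at h1 h2
    rw [hE j] at h1
    rw [hE' j] at h2
    have hp : (0 : ℝ) < (2 ^ k) ^ j := by positivity
    have h3 : |((2 : ℝ) ^ (k + 1)) ^ j * E Y - (2 ^ (k + 1)) ^ j * E' Y| ≤
        C * ((2 ^ k) ^ j * S) + C' * ((2 ^ k) ^ j * S) := by
      have h4 := abs_sub_le (((2 : ℝ) ^ (k + 1)) ^ j * E Y) (E₀ (fun s => sq^[j] (Y s)))
        ((2 ^ (k + 1)) ^ j * E' Y)
      rw [abs_sub_comm (E₀ (fun s => sq^[j] (Y s)))] at h4
      linarith
    rw [← mul_sub, abs_mul, abs_of_pos (by positivity : (0 : ℝ) < (2 ^ (k + 1)) ^ j),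
      pow_succ (2 : ℝ) k, mul_pow] at h3
    have h5 : ((2 : ℝ) ^ k) ^ j * (2 ^ j * |E Y - E' Y|) ≤ (2 ^ k) ^ j * ((C + C') * S) := by
      linarith
    exact le_of_mul_le_mul_left h5 hp
  by_contra hne
  have hpos : 0 < |E Y - E' Y| := abs_pos.2 (sub_ne_zero.2 hne)
  obtain ⟨j, hj⟩ := pow_unbounded_of_one_lt ((C + C') * S / |E Y - E' Y|)
    (one_lt_two : (1 : ℝ) < 2)
  rw [div_lt_iff₀ hpos] at hj
  exact absurd (key j) (not_le.2 hj)

end Pool.Agent.Helper82.GO
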