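import Pool.Agent.Helper10.GO.GoalsA

/-!
# Project GO (MP_6af536_nt), packet GO-NUMV: limits for functions with nonnegative differences

The proof is by induction on `d`: the differences in the two directions satisfy the hypotheses for `d - 1`, and the
limit for `h` follows by the theorem of Stolz and Cesaro along the ray `(a t, e t)`.
-/

set_option autoImplicit false

open Filter Topology

namespace Pool.Agent.Helper82.GO

open Pool.Agent.Helper10.GO (fd fds vp S_NUMV)

/-- `β ≥ (B, B)` -/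
def Ge (B : ℕ) (β : Fin 2 → ℕ) : Prop := ∀ i, B ≤ β i

theorem Ge.add {B : ℕ} {β : Fin 2 → ℕ} (h : Ge B β) (γ : Fin 2 → ℕ) : Ge B (β + γ) := by
  intro i
  have := h i
  simp only [Pi.add_apply]
  omega

theorem single_succ (β : Fin 2 → ℕ) (j : Fin 2) (k : ℕ) :
    β + Pi.single j (k + 1) = (β + Pi.single j k) + Pi.single j 1 := by
  rw [add_assoc, ← Pi.single_add]

theorem mono1 {g : (Fin 2 → ℕ) → ℤ} {B : ℕ} {j : Fin 2}
    (hg : ∀ β, Ge B β → 0 ≤ fd j g β) {β : Fin 2 → ℕ} (hβ : Ge B β) (k : ℕ) :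
    g β ≤ g (β + Pi.single j k) := by
  induction k with
  | zero => simp
  | succ k ih =>
    rw [single_succ]
    have h1 := hg (β + Pi.single j k) (hβ.add _)
    unfold fd at h1
    linarith

theorem split_le {β γ : Fin 2 → ℕ} (h : β ≤ γ) :
    γ = (β + Pi.single 0 (γ 0 - β 0)) + Pi.single 1 (γ 1 - β 1) := by
  have h0 : β 0 ≤ γ 0 := h 0
  have h1 : β 1 ≤ γ 1 := h 1
  funext i
  fin_cases i
  · simp only [Fin.zero_eta, Fin.isValue, Pi.add_apply, Pi.single_eq_same, ne_eq, zero_ne_one,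
      not_false_eq_true, Pi.single_eq_of_ne, add_zero]
    omega
  · simp only [Fin.mk_one, Fin.isValue, Pi.add_apply, ne_eq, one_ne_zero, not_false_eq_true,
      Pi.single_eq_of_ne, add_zero, Pi.single_eq_same]
    omega

theorem mono {g : (Fin 2 → ℕ) → ℤ} {B : ℕ} (hg : ∀ j β, Ge B β → 0 ≤ fd j g β)
    {β γ : Fin 2 → ℕ} (hβ : Ge B β) (h : β ≤ γ) : g β ≤ g γ := by
  rw [split_le h]
  exact (mono1 (hg 0) hβ _).trans (mono1 (hg 1) (hβ.add _) _)

/-- lower bound for the increments -/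
theorem low {h : (Fin 2 → ℕ) → ℤ} {B : ℕ} {j : Fin 2}
    (hg : ∀ β, Ge B β → 0 ≤ fd j (fd j h) β) {β : Fin 2 → ℕ} (hβ : Ge B β) (k : ℕ) :
    (k : ℤ) * fd j h β ≤ h (β + Pi.single j k) - h β := by
  induction k with
  | zero => simp
  | succ k ih =>
    rw [single_succ]
    have h1 := mono1 hg hβ k
    have h2 : fd j h (β + Pi.single j k) =
      h (β + Pi.single j k + Pi.single j 1) - h (β + Pi.single j k) := rfl
    push_cast
    linarith

/-- upper bound for the increments -/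
theorem upp {h : (Fin 2 → ℕ) → ℤ} {B : ℕ} {j : Fin 2}
    (hg : ∀ i β, Ge B β → 0 ≤ fd i (fd j h) β) {β γ : Fin 2 → ℕ} (hβ : Ge B β) (k : ℕ)
    (hγ : β + Pi.single j k ≤ γ) :
    h (β + Pi.single j k) - h β ≤ (k : ℤ) * fd j h γ := by
  induction k with
  | zero => simp
  | succ k ih =>
    rw [single_succ] at hγ ⊢
    have h0 : β + Pi.single j k ≤ γ := le_trans (le_self_add) hγ
    have h1 := ih h0
    have h3 := mono hg (hβ.add (Pi.single j k)) h0
    have h2 : fd j h (β + Pi.single j k) =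
      h (β + Pi.single j k + Pi.single j 1) - h (β + Pi.single j k) := rfl
    push_cast
    linarith

/-- the growth of the differences -/
theorem grow {h : (Fin 2 → ℕ) → ℤ} {B : ℕ} {C : ℝ} {d : ℕ} {j : Fin 2}
    (h0 : ∀ β, Ge B β → 0 ≤ h β)
    (hg : ∀ β, Ge B β → 0 ≤ fd j (fd j h) β)
    (hC : ∀ β, Ge B β → (h β : ℝ) ≤ C * ((β 0 : ℝ) + β 1 + 1) ^ (d + 1))
    {β : Fin 2 → ℕ} (hβ : Ge B β) :
    (fd j h β : ℝ) ≤ (C * 2 ^ (d + 1)) * ((β 0 : ℝ) + β 1 + 1) ^ d := by
  set s : ℕ := β 0 + β 1 + 1 with hs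
  have h1 := low hg hβ s
  have h2 := h0 β hβ
  have h3 := hC (β + Pi.single j s) (hβ.add _)
  have h4 : (((β + Pi.single j s : Fin 2 → ℕ) 0 : ℕ) : ℝ) +
      (((β + Pi.single j s : Fin 2 → ℕ) 1 : ℕ) : ℝ) + 1 = 2 * (s : ℝ) := by
    have h5 : (β + Pi.single j s : Fin 2 → ℕ) 0 + (β + Pi.single j s : Fin 2 → ℕ) 1 + 1 =
        2 * s := by
      rcases (show j = 0 ∨ j = 1 by omega) with rfl | rfl
      · simp
        omega
      · simp
        omega
    exact_mod_cast h5
  rw [h4] at h3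
  have hsr : ((β 0 : ℝ) + β 1 + 1) = (s : ℝ) := by
    rw [hs]
    push_cast
    ring
  rw [hsr]
  have hs0 : (0 : ℝ) < s := by
    rw [hs]
    positivity
  have h6 : (s : ℝ) * (fd j h β : ℝ) ≤ (h (β + Pi.single j s) : ℝ) := by
    have h7 : (s : ℤ) * fd j h β ≤ h (β + Pi.single j s) := by linarith
    exact_mod_cast h7
  have h8 : (s : ℝ) * (fd j h β : ℝ) ≤ (s : ℝ) * ((C * 2 ^ (d + 1)) * (s : ℝ) ^ d) := by
    calc (s : ℝ) * (fd j h β : ℝ) ≤ C * (2 * (s : ℝ)) ^ (d + 1) := h6.trans h3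
      _ = (s : ℝ) * ((C * 2 ^ (d + 1)) * (s : ℝ) ^ d) := by
        rw [mul_pow, pow_succ (s : ℝ) d]
        ring
  exact le_of_mul_le_mul_left h8 hs0

/-! ## The theorem of Stolz and Cesaro -/

theorem tendsto_ratio : Tendsto (fun t : ℕ => ((t : ℝ) + 1) / t) atTop (𝓝 1) := by
  have h1 : Tendsto (fun t : ℕ => 1 + ((t : ℝ))⁻¹) atTop (𝓝 (1 + 0)) :=
    tendsto_const_nhds.add tendsto_inv_atTop_nhds_zero_nat
  rw [add_zero] at h1
  refine h1.congr' ?_
  filter_upwards [eventually_ge_atTop 1] with t ht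
  have : (t : ℝ) ≠ 0 := by positivity
  field_simp

theorem tendsto_pow_diff (m : ℕ) :
    Tendsto (fun t : ℕ => (((t : ℝ) + 1) ^ (m + 1) - (t : ℝ) ^ (m + 1)) / (t : ℝ) ^ m) atTop
      (𝓝 ((m : ℝ) + 1)) := by
  induction m with
  | zero =>
    have h1 : (fun t : ℕ => (((t : ℝ) + 1) ^ (0 + 1) - (t : ℝ) ^ (0 + 1)) / (t : ℝ) ^ 0) =
        fun _ => (1 : ℝ) := by
      funext t
      simp
    rw [h1]
    simp
  | succ m ih =>
    have h1 := (tendsto_ratio.mul ih).add (tendsto_const_nhds (x := (1 : ℝ)))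
    have h2 : 1 * ((m : ℝ) + 1) + 1 = ((m + 1 : ℕ) : ℝ) + 1 := by
      push_cast
      ring
    rw [h2] at h1
    refine h1.congr' ?_
    filter_upwards [eventually_ge_atTop 1] with t ht
    have : (t : ℝ) ≠ 0 := by positivity
    field_simp
    ring

theorem stolz {u : ℕ → ℝ} {m : ℕ} {L : ℝ}
    (hu : Tendsto (fun t : ℕ => (u (t + 1) - u t) / (t : ℝ) ^ m) atTop (𝓝 L)) :
    Tendsto (fun t : ℕ => u t / (t : ℝ) ^ (m + 1)) atTop (𝓝 (L / ((m : ℝ) + 1))) := by
  have hm : ((m : ℝ) + 1) ≠ 0 := by positivity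
  set g : ℕ → ℝ := fun t => ((t : ℝ) + 1) ^ (m + 1) - (t : ℝ) ^ (m + 1) with hg
  have hgpos : ∀ t, 0 < g t := by
    intro t
    have : (t : ℝ) ^ (m + 1) < ((t : ℝ) + 1) ^ (m + 1) :=
      pow_lt_pow_left₀ (by linarith) (by positivity) (by omega)
    simp only [hg]
    linarith
  have hsum : ∀ n, ∑ t ∈ Finset.range n, g t = (n : ℝ) ^ (m + 1) := by
    intro n
    induction n with
    | zero => simp
    | succ n ih =>
      rw [Finset.sum_range_succ, ih, hg]
      push_cast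
      ring
  set f : ℕ → ℝ := fun t => (u (t + 1) - u t) - (L / ((m : ℝ) + 1)) * g t with hf
  have hfsum : ∀ n, ∑ t ∈ Finset.range n, f t =
      u n - u 0 - (L / ((m : ℝ) + 1)) * (n : ℝ) ^ (m + 1) := by
    intro n
    rw [hf, Finset.sum_sub_distrib, ← Finset.mul_sum, hsum, Finset.sum_range_sub]
  have ho : f =o[atTop] g := by
    rw [Asymptotics.isLittleO_iff_tendsto (fun t ht => absurd ht (hgpos t).ne')]
    have h1 : Tendsto (fun t : ℕ => ((u (t + 1) - u t) / (t : ℝ) ^ m) / (g t / (t : ℝ) ^ m) -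
        L / ((m : ℝ) + 1)) atTop (𝓝 (L / ((m : ℝ) + 1) - L / ((m : ℝ) + 1))) :=
      (hu.div (tendsto_pow_diff m) hm).sub tendsto_const_nhds
    rw [sub_self] at h1
    refine h1.congr' ?_
    filter_upwards [eventually_ge_atTop 1] with t ht
    have h2 : (t : ℝ) ^ m ≠ 0 := by positivity
    have h3 := (hgpos t).ne'
    rw [hf]
    simp only
    rw [div_div_div_cancel_right₀ h2, sub_div (u (t + 1) - u t), mul_div_assoc, div_self h3,
      mul_one]
  have hpow : Tendsto (fun n : ℕ => (n : ℝ) ^ (m + 1)) atTop atTop :=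
    (tendsto_pow_atTop (by omega)).comp tendsto_natCast_atTop_atTop
  have hbig : Tendsto (fun n => ∑ t ∈ Finset.range n, g t) atTop atTop := by
    refine hpow.congr ?_
    intro n
    exact (hsum n).symm
  have h1 := ho.sum_range (fun t => (hgpos t).le) hbig
  have h2 : Tendsto (fun n : ℕ => (u n - u 0 - (L / ((m : ℝ) + 1)) * (n : ℝ) ^ (m + 1)) /
      (n : ℝ) ^ (m + 1)) atTop (𝓝 0) := by
    have h3 := h1.tendsto_div_nhds_zero
    refine h3.congr ?_
    intro n
    rw [hfsum, hsum]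
  have h4 : Tendsto (fun n : ℕ => u 0 / (n : ℝ) ^ (m + 1)) atTop (𝓝 0) :=
    hpow.const_div_atTop (u 0)
  have h5 := (h2.add h4).add (tendsto_const_nhds (x := L / ((m : ℝ) + 1)))
  rw [add_zero, zero_add] at h5
  refine h5.congr' ?_
  filter_upwards [eventually_ge_atTop 1] with t ht
  have h6 : (t : ℝ) ^ (m + 1) ≠ 0 := by positivity
  field_simp
  ring

/-! ## The induction -/

theorem ge_ray {B a e t : ℕ} (ha : 1 ≤ a) (he : 1 ≤ e) (ht : B ≤ t) : Ge B ![a * t, e * t] := by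
  intro i
  fin_cases i
  · exact ht.trans (Nat.le_mul_of_pos_left t ha)
  · exact ht.trans (Nat.le_mul_of_pos_left t he)

theorem vp_left (d : ℕ) (D : Fin (d + 1) → ℝ) (a e : ℝ) :
    vp (d + 1) (Fin.snoc D 0 : Fin (d + 2) → ℝ) a e = a * vp d D a e := by
  unfold vp
  rw [Fin.sum_univ_castSucc, Finset.mul_sum]
  simp only [Fin.snoc_castSucc, Fin.snoc_last, zero_mul, add_zero, Fin.val_castSucc]
  refine Finset.sum_congr rfl fun i _ => ?_
  rw [Nat.succ_sub (Nat.lt_succ_iff.1 i.2), pow_succ]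
  ring

theorem vp_right (d : ℕ) (D : Fin (d + 1) → ℝ) (a e : ℝ) :
    vp (d + 1) (Fin.cons 0 D : Fin (d + 2) → ℝ) a e = e * vp d D a e := by
  unfold vp
  rw [Fin.sum_univ_succ, Finset.mul_sum]
  simp only [Fin.cons_zero, Fin.cons_succ, zero_mul, zero_add, Fin.val_succ]
  refine Finset.sum_congr rfl fun i _ => ?_
  rw [Nat.add_sub_add_right, pow_succ]
  ring

theorem vp_add (d : ℕ) (D D' : Fin (d + 1) → ℝ) (c a e : ℝ) :
    vp d (fun i => (D i + D' i) / c) a e = (vp d D a e + vp d D' a e) / c := by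
  unfold vp
  rw [← Finset.sum_add_distrib, Finset.sum_div]
  refine Finset.sum_congr rfl fun i _ => ?_
  ring

theorem main (d : ℕ) : ∀ (h : (Fin 2 → ℕ) → ℤ) (B : ℕ) (C : ℝ),
    (∀ js : List (Fin 2), js.length ≤ d + 1 → ∀ β : Fin 2 → ℕ, Ge B β → 0 ≤ fds js h β) →
    (∀ β : Fin 2 → ℕ, Ge B β → (h β : ℝ) ≤ C * ((β 0 : ℝ) + β 1 + 1) ^ d) →
    ∃ D : Fin (d + 1) → ℝ, (∀ i, 0 ≤ D i) ∧ ∀ a e : ℕ, 1 ≤ a → 1 ≤ e →
      Tendsto (fun t : ℕ => (h ![a * t, e * t] : ℝ) / (t : ℝ) ^ d) atTop (𝓝 (vp d D a e)) := by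
  induction d with
  | zero =>
    intro h B C hd hC
    have h0 : ∀ β, Ge B β → 0 ≤ h β := fun β hβ => hd [] (by simp) β hβ
    have h1 : ∀ j β, Ge B β → 0 ≤ fd j h β := fun j β hβ => hd [j] (by simp) β hβ
    obtain ⟨M, ⟨β₁, hβ₁, hM⟩, hmax⟩ := Int.exists_greatest_of_bdd
      (P := fun z => ∃ β, Ge B β ∧ h β = z)
      ⟨⌊C⌋, by
        rintro z ⟨β, hβ, rfl⟩
        rw [Int.le_floor]
        simpa using hC β hβ⟩
      ⟨h (fun _ => B), fun _ => B, fun _ => le_rfl, rfl⟩
    refine ⟨fun _ => (M : ℝ), fun _ => ?_, ?_⟩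
    · have := h0 β₁ hβ₁
      rw [hM] at this
      show (0 : ℝ) ≤ (M : ℝ)
      exact_mod_cast this
    · intro a e ha he
      have h2 : vp 0 (fun _ => (M : ℝ)) a e = M := by
        unfold vp
        simp
      rw [h2]
      refine tendsto_const_nhds.congr' ?_
      filter_upwards [eventually_ge_atTop (B + β₁ 0 + β₁ 1)] with t ht
      have h3 : h ![a * t, e * t] = M := by
        apply le_antisymm
        · exact hmax _ ⟨_, ge_ray ha he (by omega), rfl⟩
        · rw [← hM]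
          apply mono h1 hβ₁
          intro i
          fin_cases i
          · have : t ≤ a * t := Nat.le_mul_of_pos_left t ha
            show β₁ 0 ≤ a * t
            omega
          · have : t ≤ e * t := Nat.le_mul_of_pos_left t he
            show β₁ 1 ≤ e * t
            omega
      rw [h3]
      simp
  | succ d ih =>
    intro h B C hd hC
    have h0 : ∀ β, Ge B β → 0 ≤ h β := fun β hβ => hd [] (by simp) β hβ
    have h1 : ∀ j β, Ge B β → 0 ≤ fd j h β := fun j β hβ => hd [j] (by simp) β hβ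
    have h2 : ∀ i j β, Ge B β → 0 ≤ fd i (fd j h) β :=
      fun i j β hβ => hd [j, i] (by simp) β hβ
    have hih : ∀ j, ∃ D : Fin (d + 1) → ℝ, (∀ i, 0 ≤ D i) ∧ ∀ a e : ℕ, 1 ≤ a → 1 ≤ e →
        Tendsto (fun t : ℕ => (fd j h ![a * t, e * t] : ℝ) / (t : ℝ) ^ d) atTop
          (𝓝 (vp d D a e)) := by
      intro j
      refine ih (fd j h) B (C * 2 ^ (d + 1)) ?_ ?_
      · intro js hjs β hβ
        exact hd (j :: js) (by simp only [List.length_cons]; omega) β hβ
      · intro β hβ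
        exact grow h0 (h2 j j) hC hβ
    obtain ⟨D₀, hD₀, hl₀⟩ := hih 0
    obtain ⟨D₁, hD₁, hl₁⟩ := hih 1
    refine ⟨fun i => ((Fin.snoc D₀ 0 : Fin (d + 2) → ℝ) i + (Fin.cons 0 D₁ : Fin (d + 2) → ℝ) i) /
      ((d : ℝ) + 1), ?_, ?_⟩
    · intro i
      apply div_nonneg _ (by positivity)
      apply add_nonneg
      · refine Fin.lastCases ?_ (fun i => ?_) i
        · rw [Fin.snoc_last]
        · rw [Fin.snoc_castSucc]
          exact hD₀ i
      · refine Fin.cases ?_ (fun i => ?_) i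
        · rw [Fin.cons_zero]
        · rw [Fin.cons_succ]
          exact hD₁ i
    · intro a e ha he
      rw [vp_add, vp_left, vp_right]
      apply stolz (u := fun t : ℕ => (h ![a * t, e * t] : ℝ))
      -- the squeeze
      have hlow : Tendsto (fun t : ℕ => (a : ℝ) * ((fd 0 h ![a * t, e * t] : ℝ) / (t : ℝ) ^ d) +
          (e : ℝ) * ((fd 1 h ![a * t, e * t] : ℝ) / (t : ℝ) ^ d)) atTop
          (𝓝 ((a : ℝ) * vp d D₀ a e + (e : ℝ) * vp d D₁ a e)) :=
        ((hl₀ a e ha he).const_mul _).add ((hl₁ a e ha he).const_mul _)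
      have hup : Tendsto (fun t : ℕ => (((t : ℝ) + 1) / t) ^ d *
          ((a : ℝ) * ((fd 0 h ![a * (t + 1), e * (t + 1)] : ℝ) / ((t + 1 : ℕ) : ℝ) ^ d) +
          (e : ℝ) * ((fd 1 h ![a * (t + 1), e * (t + 1)] : ℝ) / ((t + 1 : ℕ) : ℝ) ^ d))) atTop
          (𝓝 ((a : ℝ) * vp d D₀ a e + (e : ℝ) * vp d D₁ a e)) := by
        have h3 := (tendsto_ratio.pow d).mul ((tendsto_add_atTop_iff_nat 1).2 hlow)
        rw [one_pow, one_mul] at h3
        exact h3
      have hpt : ∀ t : ℕ, B ≤ t → 1 ≤ t →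
          (a : ℤ) * fd 0 h ![a * t, e * t] + (e : ℤ) * fd 1 h ![a * t, e * t] ≤
            h ![a * (t + 1), e * (t + 1)] - h ![a * t, e * t] ∧
          h ![a * (t + 1), e * (t + 1)] - h ![a * t, e * t] ≤
            (a : ℤ) * fd 0 h ![a * (t + 1), e * (t + 1)] +
              (e : ℤ) * fd 1 h ![a * (t + 1), e * (t + 1)] := by
        intro t hB ht
        have hβ : Ge B ![a * t, e * t] := ge_ray ha he hB
        have hγ : (![a * (t + 1), e * (t + 1)] : Fin 2 → ℕ) =
            (![a * t, e * t] + Pi.single 0 a) + Pi.single 1 e := by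
          funext i
          fin_cases i
          · show a * (t + 1) = a * t + (Pi.single 0 a : Fin 2 → ℕ) 0 +
              (Pi.single 1 e : Fin 2 → ℕ) 0
            rw [Pi.single_eq_same, Pi.single_eq_of_ne (by decide)]
            ring
          · show e * (t + 1) = e * t + (Pi.single 0 a : Fin 2 → ℕ) 1 +
              (Pi.single 1 e : Fin 2 → ℕ) 1
            rw [Pi.single_eq_same, Pi.single_eq_of_ne (by decide)]
            ring
        have l0 := low (h2 0 0) hβ a
        have l1 := low (h2 1 1) (hβ.add (Pi.single 0 a)) e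
        have l2 : fd 1 h ![a * t, e * t] ≤ fd 1 h (![a * t, e * t] + Pi.single 0 a) :=
          mono1 (h2 0 1) hβ a
        have u0 := upp (γ := ![a * (t + 1), e * (t + 1)]) (fun i => h2 i 0) hβ a (by
          rw [hγ]
          exact le_self_add)
        have u1 := upp (γ := ![a * (t + 1), e * (t + 1)]) (fun i => h2 i 1)
          (hβ.add (Pi.single 0 a)) e hγ.ge
        have l3 := mul_le_mul_of_nonneg_left l2 (Int.natCast_nonneg e)
        rw [← hγ] at l1 u1
        constructor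
        · linarith
        · linarith
      refine tendsto_of_tendsto_of_tendsto_of_le_of_le' hlow hup ?_ ?_
      · filter_upwards [eventually_ge_atTop (B + 1)] with t ht
        obtain ⟨h3, -⟩ := hpt t (by omega) (by omega)
        have h4 : (a : ℝ) * (fd 0 h ![a * t, e * t] : ℝ) + (e : ℝ) * (fd 1 h ![a * t, e * t] : ℝ) ≤
            (h ![a * (t + 1), e * (t + 1)] : ℝ) - (h ![a * t, e * t] : ℝ) := by
          exact_mod_cast h3
        have ht1 : 1 ≤ t := by omega
        have h5 : (0 : ℝ) < (t : ℝ) ^ d := by positivity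
        rw [← mul_div_assoc, ← mul_div_assoc, ← add_div]
        exact div_le_div_of_nonneg_right h4 h5.le
      · filter_upwards [eventually_ge_atTop (B + 1)] with t ht
        obtain ⟨-, h3⟩ := hpt t (by omega) (by omega)
        have h4 : (h ![a * (t + 1), e * (t + 1)] : ℝ) - (h ![a * t, e * t] : ℝ) ≤
            (a : ℝ) * (fd 0 h ![a * (t + 1), e * (t + 1)] : ℝ) +
              (e : ℝ) * (fd 1 h ![a * (t + 1), e * (t + 1)] : ℝ) := by
          exact_mod_cast h3
        have ht1 : 1 ≤ t := by omega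
        have h5 : (0 : ℝ) < (t : ℝ) ^ d := by positivity
        have h6 : (0 : ℝ) < (((t + 1 : ℕ) : ℝ)) ^ d := by positivity
        rw [← mul_div_assoc, ← mul_div_assoc, ← add_div, div_pow]
        have h7 : ((t : ℝ) + 1) ^ d = (((t + 1 : ℕ) : ℝ)) ^ d := by push_cast; rfl
        rw [h7, div_mul_div_comm, mul_comm ((((t + 1 : ℕ) : ℝ)) ^ d), mul_div_mul_right _ _ h6.ne']
        exact div_le_div_of_nonneg_right h4 h5.le

theorem numv : S_NUMV := by
  intro d h B C hd hC
  exact main d h B C hd (fun β _ => hC β)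

end Pool.Agent.Helper82.GO
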