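import Pool.Agent.Helper10.GO.GoalsP

/-!
# Project GO (MP_6af536_nt), packet GO-EMB: the embedding theorem of Cassels
-/

set_option autoImplicit false

open Polynomial

noncomputable section

namespace Pool.Agent.Helper82.GO

open Pool.Agent.Helper10.GO (S_EMA S_PDV S_AIP S_EMB)

section padic

variable {p : ℕ} [Fact p.Prime]

theorem norm_lt_one_iff_toZMod (x : ℤ_[p]) : ‖x‖ < 1 ↔ PadicInt.toZMod x = 0 := by
  rw [← PadicInt.mem_nonunits, ← IsLocalRing.mem_maximalIdeal, ← PadicInt.ker_toZMod,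
    RingHom.mem_ker]

theorem norm_eq_one_of_toZMod {x : ℤ_[p]} (h : PadicInt.toZMod x ≠ 0) : ‖x‖ = 1 :=
  le_antisymm (PadicInt.norm_le_one x) (not_lt.1 (mt (norm_lt_one_iff_toZMod x).1 h))

/-- evaluation at `t'` -/
abbrev ev {r : ℕ} {R : Type} [CommRing R] (t : Fin r → R) : MvPolynomial (Fin r) ℤ →+* R :=
  ((MvPolynomial.aeval t : MvPolynomial (Fin r) ℤ →ₐ[ℤ] R) : MvPolynomial (Fin r) ℤ →+* R)

theorem red_hom {r : ℕ} (a : Fin r → ℤ) (t' : Fin r → ℤ_[p])
    (h : ∀ i, (p : ℤ_[p]) ∣ t' i - (a i : ℤ_[p])) :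
    (PadicInt.toZMod (p := p)).comp (ev t') =
      (Int.castRingHom (ZMod p)).comp (MvPolynomial.eval a) := by
  apply MvPolynomial.ringHom_ext
  · intro n
    simp
  · intro i
    have h1 := (norm_lt_one_iff_toZMod (t' i - (a i : ℤ_[p]))).1 ((PadicInt.norm_lt_one_iff_dvd _).2 (h i))
    rw [map_sub, sub_eq_zero, map_intCast] at h1
    simpa using h1

theorem red_eval {r : ℕ} (a : Fin r → ℤ) (t' : Fin r → ℤ_[p])
    (h : ∀ i, (p : ℤ_[p]) ∣ t' i - (a i : ℤ_[p])) (Q : Polynomial (MvPolynomial (Fin r) ℤ))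
    (θ₀ : ℤ) : PadicInt.toZMod (Q.eval₂ (ev t') (θ₀ : ℤ_[p])) =
      (((Q.map (MvPolynomial.eval a)).eval θ₀ : ℤ) : ZMod p) := by
  rw [Polynomial.hom_eval₂, red_hom a t' h, map_intCast, Polynomial.eval_map]
  have h1 := Polynomial.hom_eval₂ Q (MvPolynomial.eval a) (Int.castRingHom (ZMod p)) θ₀
  simp only [eq_intCast] at h1
  exact h1.symm

theorem hens {r : ℕ} (a : Fin r → ℤ) (t' : Fin r → ℤ_[p])
    (h : ∀ i, (p : ℤ_[p]) ∣ t' i - (a i : ℤ_[p])) (P U V : Polynomial (MvPolynomial (Fin r) ℤ))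
    (D : MvPolynomial (Fin r) ℤ) (hUV : U * P + V * derivative P = C D) (θ₀ : ℤ)
    (hP : (p : ℤ) ∣ (P.map (MvPolynomial.eval a)).eval θ₀)
    (hD : ¬ (p : ℤ) ∣ MvPolynomial.eval a D) : ∃ θ' : ℤ_[p], P.eval₂ (ev t') θ' = 0 := by
  have h1 : PadicInt.toZMod (P.eval₂ (ev t') (θ₀ : ℤ_[p])) = 0 := by
    rw [red_eval a t' h]
    exact (ZMod.intCast_zmod_eq_zero_iff_dvd _ p).2 hP
  have h2 : PadicInt.toZMod ((derivative P).eval₂ (ev t') (θ₀ : ℤ_[p])) ≠ 0 := by
    intro h3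
    apply hD
    rw [← ZMod.intCast_zmod_eq_zero_iff_dvd]
    have h4 := red_eval a t' h (C D) θ₀
    rw [← hUV, eval₂_add, eval₂_mul, eval₂_mul, map_add, map_mul, map_mul, h1, h3, mul_zero,
      mul_zero, add_zero, hUV, map_C, eval_C] at h4
    exact h4.symm
  have h5 : ‖(P.map (ev t')).aeval (θ₀ : ℤ_[p])‖ <
      ‖(P.map (ev t')).derivative.aeval (θ₀ : ℤ_[p])‖ ^ 2 := by
    rw [derivative_map, coe_aeval_eq_eval, eval_map, eval_map, norm_eq_one_of_toZMod h2, one_pow]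
    exact (norm_lt_one_iff_toZMod _).2 h1
  obtain ⟨z, hz, -⟩ := hensels_lemma h5
  refine ⟨z, ?_⟩
  rw [coe_aeval_eq_eval, eval_map] at hz
  exact hz

/-- the last step: two injective homomorphisms on a domain -/
theorem glue {B : Type} [CommRing B] [IsDomain B] (φ : B →+* ℂ) (ψ : B →+* ℤ_[p])
    (hφ : Function.Injective φ) (hψ : Function.Injective ψ) (S : Set ℂ) (d : B) (hd0 : d ≠ 0)
    (hd : ‖ψ d‖ = 1) (hS : ∀ s ∈ S, ∃ b : B, φ d * s = φ b) :
    ∃ σ : Algebra.adjoin ℤ S →+* ℤ_[p], Function.Injective σ := by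
  have hψ' : Function.Injective ((algebraMap ℤ_[p] ℚ_[p]).comp ψ) :=
    (IsFractionRing.injective ℤ_[p] ℚ_[p]).comp hψ
  let φh : FractionRing B →+* ℂ := IsFractionRing.lift hφ
  let ψh : FractionRing B →+* ℚ_[p] := IsFractionRing.lift hψ'
  have hφh : ∀ b, φh (algebraMap B (FractionRing B) b) = φ b :=
    fun b => IsFractionRing.lift_algebraMap hφ b
  have hψh : ∀ b, ψh (algebraMap B (FractionRing B) b) = ((ψ b : ℤ_[p]) : ℚ_[p]) :=
    fun b => IsFractionRing.lift_algebraMap hψ' b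
  have key : ∀ x ∈ Algebra.adjoin ℤ S, ∃ f : FractionRing B, ‖ψh f‖ ≤ 1 ∧ φh f = x := by
    have h1 : Algebra.adjoin ℤ S ≤
        subalgebraOfSubring (((PadicInt.subring p).comap ψh).map φh) := by
      apply Algebra.adjoin_le
      intro s hs
      obtain ⟨b, hb⟩ := hS s hs
      refine ⟨algebraMap B (FractionRing B) b / algebraMap B (FractionRing B) d, ?_, ?_⟩
      · show ‖ψh _‖ ≤ 1
        rw [map_div₀, hψh, hψh, norm_div, PadicInt.padic_norm_e_of_padicInt,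
          PadicInt.padic_norm_e_of_padicInt, hd, div_one]
        exact PadicInt.norm_le_one _
      · have h2 : φ d ≠ 0 := fun h3 => hd0 (hφ (by rw [h3, map_zero]))
        show φh (algebraMap B (FractionRing B) b / algebraMap B (FractionRing B) d) = s
        rw [map_div₀, hφh, hφh, ← hb, mul_div_cancel_left₀ _ h2]
    intro x hx
    obtain ⟨f, hf, hfx⟩ := h1 hx
    exact ⟨f, hf, hfx⟩
  let T : Subring (FractionRing B) := (Algebra.adjoin ℤ S).toSubring.comap φh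
  have hT : ∀ f : T, ‖ψh f‖ ≤ 1 := by
    intro f
    obtain ⟨g, hg, hgf⟩ := key (φh f) f.2
    have h2 : g = f := φh.injective hgf
    rw [← h2]
    exact hg
  let g : T →+* Algebra.adjoin ℤ S :=
    (φh.comp T.subtype).codRestrict (Algebra.adjoin ℤ S) (fun f => f.2)
  have hg : Function.Bijective g := by
    constructor
    · intro f₁ f₂ h
      apply Subtype.ext
      apply φh.injective
      exact congrArg Subtype.val h
    · intro x
      obtain ⟨f, -, hfx⟩ := key x.1 x.2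
      have hf : f ∈ T := by
        show φh f ∈ Algebra.adjoin ℤ S
        rw [hfx]
        exact x.2
      exact ⟨⟨f, hf⟩, Subtype.ext hfx⟩
  let e : T ≃+* Algebra.adjoin ℤ S := RingEquiv.ofBijective g hg
  let τ : T →+* ℤ_[p] :=
    { toFun := fun f => ⟨ψh f, hT f⟩
      map_one' := Subtype.ext (by simp)
      map_mul' := fun f₁ f₂ => Subtype.ext (by simp)
      map_zero' := Subtype.ext (by simp)
      map_add' := fun f₁ f₂ => Subtype.ext (by simp) }
  refine ⟨τ.comp (e.symm : Algebra.adjoin ℤ S →+* T), ?_⟩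
  have hτ : Function.Injective τ := by
    intro f₁ f₂ h
    apply Subtype.ext
    apply ψh.injective
    exact congrArg Subtype.val h
  exact hτ.comp e.symm.injective

end padic

theorem emb (hEMA : S_EMA) (hPDV : S_PDV) (hAIP : S_AIP) : S_EMB := by
  intro S hS
  obtain ⟨r, t, θ, P, D, ht, hmon, hdeg, hD, hker, ⟨U, V, hUV⟩, hs⟩ := hEMA S hS
  obtain ⟨a, ha⟩ : ∃ a : Fin r → ℤ, MvPolynomial.eval a D ≠ 0 := by
    by_contra hcon
    push Not at hcon
    apply hD
    apply MvPolynomial.funext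
    intro x
    rw [hcon x, map_zero]
  have hPa : 0 < (P.map (MvPolynomial.eval a)).natDegree := by
    rw [hmon.natDegree_map]
    exact hdeg
  obtain ⟨p, hp, hnp, θ₀, hθ₀⟩ := hPDV (P.map (MvPolynomial.eval a)) hPa
    (3 + (MvPolynomial.eval a D).natAbs)
  have hpF : Fact p.Prime := ⟨hp⟩
  have hpD : ¬ (p : ℤ) ∣ MvPolynomial.eval a D := by
    intro h
    have h1 := Int.natAbs_dvd_natAbs.2 h
    rw [Int.natAbs_natCast] at h1
    have h2 := Nat.le_of_dvd (Int.natAbs_pos.2 ha) h1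
    omega
  obtain ⟨t', ht', hta⟩ := hAIP p r a
  obtain ⟨θ', hθ'⟩ := hens a t' hta P U V D hUV θ₀ hθ₀ hpD
  have hPθ : P.eval₂ (ev t) θ = 0 := (hker P).1 dvd_rfl
  let φ : AdjoinRoot P →+* ℂ := AdjoinRoot.lift (ev t) θ hPθ
  let ψ : AdjoinRoot P →+* ℤ_[p] := AdjoinRoot.lift (ev t') θ' hθ'
  have hφmk : ∀ Q, φ (AdjoinRoot.mk P Q) = Q.eval₂ (ev t) θ := fun Q => AdjoinRoot.lift_mk _ _
  have hφof : ∀ c, φ (AdjoinRoot.of P c) = ev t c := fun c => AdjoinRoot.lift_of _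
  have hψof : ∀ c, ψ (AdjoinRoot.of P c) = ev t' c := fun c => AdjoinRoot.lift_of _
  have hφ : Function.Injective φ := by
    rw [injective_iff_map_eq_zero]
    intro x hx
    obtain ⟨Q, rfl⟩ := AdjoinRoot.mk_surjective x
    rw [hφmk] at hx
    exact AdjoinRoot.mk_eq_zero.2 ((hker Q).2 hx)
  have hdom : IsDomain (AdjoinRoot P) := hφ.isDomain φ
  have hfin : Module.Finite (MvPolynomial (Fin r) ℤ) (AdjoinRoot P) := hmon.finite_adjoinRoot
  have hψ : Function.Injective ψ := by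
    rw [injective_iff_map_eq_zero]
    intro x hx
    by_contra hx0
    have halg : IsAlgebraic (MvPolynomial (Fin r) ℤ) x :=
      (Algebra.IsIntegral.isIntegral (R := MvPolynomial (Fin r) ℤ) x).isAlgebraic
    obtain ⟨c, hc0, y, hy⟩ := halg.exists_nonzero_dvd (mem_nonZeroDivisors_of_ne_zero hx0)
    apply hc0
    rw [AdjoinRoot.algebraMap_eq] at hy
    have h1 : ev t' c = 0 := by
      rw [← hψof, hy, map_mul, hx, zero_mul]
    exact (injective_iff_map_eq_zero _).1 ht' c h1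
  have hd0 : AdjoinRoot.of P D ≠ 0 := by
    intro h
    apply hD
    have h1 : ev t D = 0 := by rw [← hφof, h, map_zero]
    exact (injective_iff_map_eq_zero _).1 ht D h1
  have hd : ‖ψ (AdjoinRoot.of P D)‖ = 1 := by
    rw [hψof]
    apply norm_eq_one_of_toZMod
    have h1 := congrArg (fun f => f D) (red_hom a t' hta)
    have h2 : PadicInt.toZMod (ev t' D) = ((MvPolynomial.eval a D : ℤ) : ZMod p) := h1
    rw [h2, Ne, ZMod.intCast_zmod_eq_zero_iff_dvd]
    exact hpD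
  obtain ⟨σ, hσ⟩ := glue φ ψ hφ hψ S (AdjoinRoot.of P D) hd0 hd (by
    intro s hsS
    obtain ⟨Q, hQ⟩ := hs s hsS
    refine ⟨AdjoinRoot.mk P Q, ?_⟩
    rw [hφof, hφmk, ← hQ]
    rfl)
  exact ⟨p, hpF, σ, by omega, hσ⟩

end Pool.Agent.Helper82.GO
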