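import Pool.Agent.Helper40.GO.GoalsQ
import Pool.Agent.Helper40.GO.HYP
import Pool.Agent.Helper35.GO.ETD
import Pool.Agent.Helper82.GO.EMB

/-!
# Project GO (MP_6af536_nt), packet GO-UNR: unramified self-maps of quasi-projective varieties
-/

set_option autoImplicit false

open MvPolynomial

noncomputable section

namespace Pool.Agent.Helper82.GO

open Pool.Agent.Helper10.GO Pool.Agent.Helper40.GO
open Pool.Agent.Helper35.GO (ev_map lift_poly)
open Pool.Agent.Helper73.HD (aeval_scale)

/-- the determinant of the rows commutes with evaluations -/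
theorem rowMat_ev {A B : Type} [CommRing A] [CommRing B] (g : A →+* B) {M s : ℕ}
    (G : Fin M → MvPolynomial (Fin M) A) (E : Fin s → MvPolynomial (Fin M) A)
    (ρ : Fin M → Fin M ⊕ Fin s) (y : Fin M → A) :
    g (eval y (rowMat G E ρ).det) = (Matrix.of fun i j : Fin M =>
      Sum.elim (fun i' => g (eval y (pderiv j (G i')))) (fun i' => g (eval y (pderiv j (E i'))))
        (ρ i)).det := by
  rw [← RingHom.comp_apply, RingHom.map_det]
  congr 1
  funext i j
  simp only [rowMat, RingHom.mapMatrix_apply, Matrix.map_apply, Matrix.of_apply]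
  cases ρ i <;> rfl

theorem eval_aeval {A : Type} [CommRing A] {M : ℕ} (y : Fin M → A)
    (G : Fin M → MvPolynomial (Fin M) A) (P : MvPolynomial (Fin M) A) :
    eval y (aeval G P) = eval (fun i => eval y (G i)) P := by
  have h : ((aeval y : MvPolynomial (Fin M) A →ₐ[A] A).comp (aeval G)) =
      (aeval fun i => eval y (G i)) := by
    apply MvPolynomial.algHom_ext
    intro i
    simp [aeval_eq_eval]
  have h1 := congrArg (fun F => F P) h
  simpa [aeval_eq_eval] using h1

theorem aeval_zero_hom {K : Type} [Field K] [Algebra K ℂ] {N e : ℕ}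
    {P : MvPolynomial (Fin (N + 1)) K} (he : 1 ≤ e) (hP : P.IsHomogeneous e) :
    aeval (0 : Fin (N + 1) → ℂ) P = 0 := by
  have h := aeval_scale hP (0 : ℂ) (0 : Fin (N + 1) → ℂ)
  have h1 : (fun j => (0 : ℂ) * (0 : Fin (N + 1) → ℂ) j) = 0 := by
    funext j
    simp
  rw [h1, zero_pow (by omega), zero_mul] at h
  exact h

theorem unr (h1 : S_QCERT) (h2 : S_QPAD) (h3 : S_EMB) : S_UNR := by
  classical
  intro K _ _ N f x ι _ P hx hP hP0 hU d Q hQ
  obtain ⟨s, E, T, _, l, c', ρ, A, B, e, hEh, hE0, hcert⟩ := h1 K N f ι P hP hU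
  obtain ⟨c₀, hc₀⟩ := hP0
  have hmem : ∀ n, f.Mem (x n) := (((Pool.Agent.Helper24.GO.qorb K N f).2.2) x hx).1
  obtain ⟨l₀⟩ : Nonempty (Fin f.r) := by
    obtain ⟨-, l, -⟩ := hx.2 0
    exact ⟨l⟩
  set al : K →+* ℂ := algebraMap K ℂ with hal
  -- the finite set of polynomials
  set 𝓟 : Set (MvPolynomial (Fin (N + 1)) K) := Set.range P ∪
    Set.range (fun q : Fin f.r × Fin (N + 1) => f.G q.1 q.2) ∪ Set.range E ∪
    Set.range (fun q : ι × T => A q.1 q.2) ∪ Set.range (fun q : ι × Fin s => B q.1 q.2) ∪ {Q}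
    with h𝓟
  have h𝓟f : 𝓟.Finite := by
    refine (((((Set.finite_range _).union (Set.finite_range _)).union
      (Set.finite_range _)).union (Set.finite_range _)).union (Set.finite_range _)).union
      (Set.finite_singleton _)
  set S : Set ℂ := (⋃ R ∈ 𝓟, al '' ((R.coeffs : Finset K) : Set K)) ∪ Set.range (x 0) ∪
    {(aeval (x 0) (P c₀))⁻¹} with hS
  have hfin : S.Finite := by
    refine ((h𝓟f.biUnion fun R _ => (Finset.finite_toSet _).image _).union
      (Set.finite_range _)).union (Set.finite_singleton _)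
  obtain ⟨p, hp, σ, hp3, hσ⟩ := h3 S hfin
  set g : Algebra.adjoin ℤ S →+* ℂ := (Algebra.adjoin ℤ S).val.toRingHom with hg
  have hgi : Function.Injective g := Subtype.val_injective
  have hlift : ∀ R ∈ 𝓟, ∃ R' : MvPolynomial (Fin (N + 1)) (Algebra.adjoin ℤ S),
      map g R' = map al R := by
    intro R hR
    refine lift_poly g (map al R) fun m hm => ?_
    have h4 : (map al R).coeff m = al (R.coeff m) := coeff_map _ _ _
    have h5 : m ∈ R.support := by
      rw [mem_support_iff] at hm ⊢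
      intro h0
      apply hm
      rw [h4, h0, map_zero]
    have h6 : al (R.coeff m) ∈ S :=
      Or.inl (Or.inl (Set.mem_biUnion hR
        ⟨_, Finset.mem_coe.2 (coeff_mem_coeffs m (mem_support_iff.1 h5)), rfl⟩))
    exact ⟨⟨_, Algebra.subset_adjoin h6⟩, h4.symm⟩
  have hP1 : ∀ c, ∃ R', map g R' = map al (P c) := fun c => hlift _
    (Or.inl (Or.inl (Or.inl (Or.inl (Or.inl ⟨c, rfl⟩)))))
  have hG1 : ∀ q : Fin f.r, ∀ i, ∃ R', map g R' = map al (f.G q i) := fun q i => hlift _
    (Or.inl (Or.inl (Or.inl (Or.inl (Or.inr ⟨(q, i), rfl⟩)))))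
  have hE1 : ∀ i, ∃ R', map g R' = map al (E i) := fun i => hlift _
    (Or.inl (Or.inl (Or.inl (Or.inr ⟨i, rfl⟩))))
  have hA1 : ∀ c t, ∃ R', map g R' = map al (A c t) := fun c t => hlift _
    (Or.inl (Or.inl (Or.inr ⟨(c, t), rfl⟩)))
  have hB1 : ∀ c i, ∃ R', map g R' = map al (B c i) := fun c i => hlift _
    (Or.inl (Or.inr ⟨(c, i), rfl⟩))
  choose P' hP' using hP1
  choose G' hG' using hG1
  choose E' hE' using hE1
  choose A' hA' using hA1
  choose B' hB' using hB1
  obtain ⟨Q', hQ'⟩ := hlift Q (Or.inr rfl)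
  -- evaluation of the lifts
  have hev : ∀ (y : Fin (N + 1) → Algebra.adjoin ℤ S)
      (R' : MvPolynomial (Fin (N + 1)) (Algebra.adjoin ℤ S)) (R : MvPolynomial (Fin (N + 1)) K),
      map g R' = map al R → g (eval y R') = aeval (fun i => g (y i)) R := by
    intro y R' R hR
    rw [ev_map, hR, eval_map, aeval_def]
  have hevd : ∀ (y : Fin (N + 1) → Algebra.adjoin ℤ S)
      (R' : MvPolynomial (Fin (N + 1)) (Algebra.adjoin ℤ S)) (R : MvPolynomial (Fin (N + 1)) K)
      (j : Fin (N + 1)),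
      map g R' = map al R → g (eval y (pderiv j R')) = aeval (fun i => g (y i)) (pderiv j R) := by
    intro y R' R j hR
    apply hev
    rw [← pderiv_map, hR, pderiv_map]
  set Θ : T → MvPolynomial (Fin (N + 1)) (Algebra.adjoin ℤ S) := fun t =>
    aeval (G' (l t)) (P' (c' t)) * (rowMat (G' (l t)) E' (ρ t)).det with hΘ
  -- the identity at the points
  have hid : ∀ (y : Fin (N + 1) → Algebra.adjoin ℤ S) (c : ι), (∀ i, eval y (E' i) = 0) →
      eval y (P' c) ^ e c = ∑ t, eval y (A' c t) * eval y (Θ t) := by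
    intro y c hy
    apply hgi
    have h4 := congrArg (aeval (fun i => g (y i))) (hcert c)
    rw [map_pow, map_add, map_sum, map_sum] at h4
    have h5 : ∑ i, aeval (fun i => g (y i)) (B c i * E i) = 0 := by
      refine Finset.sum_eq_zero fun i _ => ?_
      rw [map_mul, ← hev y _ _ (hE' i), hy, map_zero, mul_zero]
    rw [h5, add_zero] at h4
    rw [map_pow, hev y _ _ (hP' c), h4, map_sum]
    refine Finset.sum_congr rfl fun t _ => ?_
    rw [map_mul, map_mul, map_mul, hev y _ _ (hA' c t), hΘ]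
    simp only [map_mul]
    congr 2
    · rw [eval_aeval, hev _ _ _ (hP' (c' t)), aeval_comp]
      congr 1
      congr 1
      funext i
      exact (hev y _ _ (hG' (l t) i)).symm
    · rw [rowMat_ev]
      have h6 := RingHom.map_det
        ((aeval (fun i => g (y i)) : MvPolynomial (Fin (N + 1)) K →ₐ[K] ℂ) :
          MvPolynomial (Fin (N + 1)) K →+* ℂ) (rowMat (f.G (l t)) E (ρ t))
      refine Eq.trans h6 ?_
      congr 1
      funext i j
      simp only [rowMat, RingHom.mapMatrix_apply, Matrix.map_apply, Matrix.of_apply]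
      cases ρ t i with
      | inl i' => exact (hevd y _ _ j (hG' (l t) i')).symm
      | inr i' => exact (hevd y _ _ j (hE' i')).symm
  -- reduction
  set τ : Algebra.adjoin ℤ S →+* ZMod p := (PadicInt.toZMod).comp σ with hτ
  have : Nontrivial (ZMod p) := inferInstance
  set L : (Fin (N + 1) → ZMod p) → Fin f.r := fun z =>
    if h : ∃ t, eval z (map τ (Θ t)) ≠ 0 then l h.choose else l₀ with hL
  have hLt : ∀ y : Fin (N + 1) → Algebra.adjoin ℤ S, (∃ t, τ (eval y (Θ t)) ≠ 0) →
      ∃ t, L (fun j => τ (y j)) = l t ∧ τ (eval y (Θ t)) ≠ 0 := by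
    rintro y ⟨t, ht⟩
    have h4 : ∃ t, eval (fun j => τ (y j)) (map τ (Θ t)) ≠ 0 := ⟨t, by rw [← ev_map]; exact ht⟩
    refine ⟨h4.choose, dif_pos h4, ?_⟩
    rw [ev_map]
    exact h4.choose_spec
  set Y : ℕ → Fin (N + 1) → Algebra.adjoin ℤ S := fun n =>
    Nat.rec (fun i => ⟨x 0 i, Algebra.subset_adjoin (Or.inl (Or.inr ⟨i, rfl⟩))⟩)
      (fun _ y i => eval y (G' (L (fun j => τ (y j))) i)) n with hY
  have hYs : ∀ n i, Y (n + 1) i = eval (Y n) (G' (L (fun j => τ (Y n j))) i) := fun n i => rfl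
  have hY0 : ∀ i, g (Y 0 i) = x 0 i := fun i => rfl
  have hEY : ∀ n, (∃ c : ℂ, c ≠ 0 ∧ ∀ j, g (Y n j) = c * x n j) → ∀ i, eval (Y n) (E' i) = 0 := by
    rintro n ⟨c, -, hc⟩ i
    apply hgi
    obtain ⟨d', hd'⟩ := hEh i
    rw [hev _ _ _ (hE' i), map_zero, funext hc, aeval_scale hd', hE0 i _ (hmem n), mul_zero]
  have hex : ∀ n, (∃ c : ℂ, c ≠ 0 ∧ ∀ j, g (Y n j) = c * x n j) →
      (∃ c, τ (eval (Y n) (P' c)) ≠ 0) → ∃ t, τ (eval (Y n) (Θ t)) ≠ 0 := by
    rintro n hn ⟨c, hc⟩
    by_contra hall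
    push Not at hall
    have h4 := congrArg τ (hid (Y n) c (hEY n hn))
    rw [map_pow, map_sum] at h4
    have h5 : ∑ t, τ (eval (Y n) (A' c t) * eval (Y n) (Θ t)) = 0 :=
      Finset.sum_eq_zero fun t _ => by rw [map_mul, hall t, mul_zero]
    rw [h5] at h4
    exact pow_ne_zero _ hc h4
  -- the invariant
  have hinv : ∀ n, (∃ c : ℂ, c ≠ 0 ∧ ∀ j, g (Y n j) = c * x n j) ∧
      ∃ c, τ (eval (Y n) (P' c)) ≠ 0 := by
    intro n
    induction n with
    | zero =>
      refine ⟨⟨1, one_ne_zero, fun j => by rw [hY0, one_mul]⟩, c₀, fun h0 => ?_⟩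
      set w : Algebra.adjoin ℤ S := ⟨(aeval (x 0) (P c₀))⁻¹, Algebra.subset_adjoin (Or.inr rfl)⟩
        with hw
      have h4 : eval (Y 0) (P' c₀) * w = 1 := by
        apply hgi
        rw [map_mul, map_one, hev _ _ _ (hP' c₀)]
        have h5 : (fun i => g (Y 0 i)) = x 0 := funext hY0
        rw [h5]
        exact mul_inv_cancel₀ hc₀
      have h5 := congrArg τ h4
      rw [map_mul, h0, zero_mul, map_one] at h5
      exact zero_ne_one h5
    | succ n ih =>
      obtain ⟨t, ht1, ht2⟩ := hLt (Y n) (hex n ih.1 ih.2)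
      have hval : eval (Y n) (aeval (G' (l t)) (P' (c' t))) = eval (Y (n + 1)) (P' (c' t)) := by
        rw [eval_aeval]
        congr 1
        congr 1
        funext i
        rw [hYs, ht1]
      have h4 : τ (eval (Y (n + 1)) (P' (c' t))) ≠ 0 := by
        intro h0
        apply ht2
        rw [hΘ]
        simp only [map_mul]
        rw [hval, h0, zero_mul]
      obtain ⟨⟨cn, hcn0, hcn⟩, -⟩ := ih
      have h5 : aeval (fun i => g (Y (n + 1) i)) (P (c' t)) ≠ 0 := by
        rw [← hev _ _ _ (hP' (c' t))]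
        intro h0
        apply h4
        rw [(map_eq_zero_iff g hgi).1 h0, map_zero]
      obtain ⟨e', he', hPe⟩ := hP (c' t)
      have h6 : (fun i => g (Y (n + 1) i)) ≠ 0 := by
        intro h0
        rw [h0] at h5
        exact h5 (aeval_zero_hom he' hPe)
      have h7 : ∀ i, g (Y (n + 1) i) = cn ^ f.deg (l t) * aeval (x n) (f.G (l t) i) := by
        intro i
        rw [hYs, ht1, hev _ _ _ (hG' (l t) i), funext hcn, aeval_scale (f.G_homog (l t) i)]
      obtain ⟨j, hj⟩ := Function.ne_iff.1 h6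
      have h8 : aeval (x n) (f.G (l t) j) ≠ 0 := by
        intro h0
        apply hj
        show g (Y (n + 1) j) = 0
        rw [h7, h0, mul_zero]
      obtain ⟨c1, hc10, hc1⟩ := img_formula (hmem n) (hx.2 n) h8
      refine ⟨⟨cn ^ f.deg (l t) * c1, mul_ne_zero (pow_ne_zero _ hcn0) hc10, fun i => ?_⟩,
        c' t, h4⟩
      rw [h7, hc1, mul_assoc]
  have key := h2 p (N + 1) f.r s (fun q i => map σ (G' q i)) (fun i => map σ (E' i))
    (fun n i => σ (Y n i)) (fun n => L (fun j => τ (Y n j))) (map σ Q') hp3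
    (fun n i => by rw [hYs, ev_map])
    (fun n j => by rw [← ev_map, hEY n (hinv n).1, map_zero])
    (fun n m h => by
      have h4 : (fun j => τ (Y n j)) = fun j => τ (Y m j) := by
        funext j
        have h5 := (norm_lt_one_iff_toZMod (σ (Y n j) - σ (Y m j))).1
          ((PadicInt.norm_lt_one_iff_dvd _).2 (h j))
        rw [map_sub, sub_eq_zero] at h5
        exact h5
      show L (fun j => τ (Y n j)) = L (fun j => τ (Y m j))
      rw [h4])
    (fun n v hv1 hv2 => by
      obtain ⟨t, ht1, ht2⟩ := hLt (Y n) (hex n (hinv n).1 (hinv n).2)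
      have h4 : τ (eval (Y n) (rowMat (G' (l t)) E' (ρ t)).det) ≠ 0 := by
        intro h0
        apply ht2
        rw [hΘ]
        simp only [map_mul]
        rw [h0, mul_zero]
      rw [rowMat_ev] at h4
      refine Matrix.eq_zero_of_mulVec_eq_zero h4 ?_
      funext i
      have hτσ : ∀ (R' : MvPolynomial (Fin (N + 1)) (Algebra.adjoin ℤ S)) (j : Fin (N + 1)),
          PadicInt.toZMod (eval (fun i => σ (Y n i)) (pderiv j (map σ R'))) =
            τ (eval (Y n) (pderiv j R')) := by
        intro R' j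
        rw [pderiv_map, ← ev_map]
        rfl
      simp only [Matrix.mulVec, dotProduct, Matrix.of_apply, Pi.zero_apply]
      cases hρ : ρ t i with
      | inl i' =>
        have h5 := hv1 i'
        simp only [hτσ] at h5
        rw [ht1] at h5
        exact h5
      | inr i' =>
        have h5 := hv2 i'
        simp only [hτσ] at h5
        exact h5)
  have hiff : ∀ n, eval (fun i => σ (Y n i)) (map σ Q') = 0 ↔ aeval (x n) Q = 0 := by
    intro n
    obtain ⟨c, hc0, hc⟩ := (hinv n).1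
    rw [← ev_map, map_eq_zero_iff σ hσ, ← map_eq_zero_iff g hgi, hev _ _ _ hQ', funext hc,
      aeval_scale hQ, mul_eq_zero, or_iff_right (pow_ne_zero _ hc0)]
  obtain ⟨q, hq, n₀, h⟩ := key
  refine ⟨q, hq, n₀, fun n hn => ?_⟩
  exact (hiff n).symm.trans ((h n hn).trans (hiff (n + q)))

end Pool.Agent.Helper82.GO
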