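import Pool.Agent.Helper40.GO.DefsD

/-!
# Project GO (MP_6af536_nt), packet GO-VIS: the diagonal function
-/

set_option autoImplicit false

open Filter Topology

noncomputable section

namespace Pool.Agent.Helper82.GO

open Pool.Agent.Helper40.GO (BlowData Visc Sums S_TCH S_VIS)

/-- the mean -/
def mn {k : ℕ} (x : Fin (k + 1) → ℝ) : ℝ := (∑ i, x i) / ((k : ℝ) + 1)

/-- the touching polynomial -/
def psi {k : ℕ} (b c K : ℝ) (x : Fin (k + 1) → ℝ) : ℝ :=
  b * mn x + c * mn x ^ 2 + K * ∑ i, (x i - mn x) ^ 2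

theorem mn_const {k : ℕ} (r : ℝ) : mn (fun _ : Fin (k + 1) => r) = r := by
  unfold mn
  rw [Finset.sum_const, Finset.card_univ, Fintype.card_fin, nsmul_eq_mul]
  have : ((k : ℝ) + 1) ≠ 0 := by positivity
  push_cast
  field_simp

theorem mn_add {k : ℕ} (x : Fin (k + 1) → ℝ) (h : ℝ) : mn (fun i => x i + h) = mn x + h := by
  unfold mn
  rw [Finset.sum_add_distrib, Finset.sum_const, Finset.card_univ, Fintype.card_fin, nsmul_eq_mul]
  have : ((k : ℝ) + 1) ≠ 0 := by positivity
  push_cast
  field_simp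

theorem mn_diff {k : ℕ} : Differentiable ℝ (mn : (Fin (k + 1) → ℝ) → ℝ) := by
  unfold mn
  fun_prop

theorem psi_diff {k : ℕ} (b c K : ℝ) : Differentiable ℝ (psi b c K : (Fin (k + 1) → ℝ) → ℝ) := by
  have h := mn_diff (k := k)
  unfold psi
  fun_prop

theorem psi_const {k : ℕ} (b c K r : ℝ) :
    psi b c K (fun _ : Fin (k + 1) => r) = b * r + c * r ^ 2 := by
  unfold psi
  rw [mn_const]
  simp

theorem psi_add {k : ℕ} (b c K : ℝ) (x : Fin (k + 1) → ℝ) (h : ℝ) :
    psi b c K (fun i => x i + h) - psi b c K x = (b + 2 * c * mn x) * h + c * h ^ 2 := by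
  unfold psi
  rw [mn_add]
  have : ∀ i, (x i + h - (mn x + h)) ^ 2 = (x i - mn x) ^ 2 := fun i => by ring
  simp only [this]
  ring

theorem lip_cont {k : ℕ} {F : (Fin (k + 1) → ℝ) → ℝ} {M : Finset ℝ} {L : ℝ}
    (H : BlowData (k + 1) F M L) : ContinuousOn F {x | ∀ i, 0 < x i} := by
  have h1 : LipschitzOnWith (L * ((k : ℝ) + 1)).toNNReal F {x | ∀ i, 0 < x i} := by
    apply LipschitzOnWith.of_dist_le_mul
    intro x hx y hy
    rw [Real.coe_toNNReal _ (mul_nonneg H.L0 (by positivity)), Real.dist_eq]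
    refine (H.lip x y hx hy).trans ?_
    rw [mul_assoc]
    refine mul_le_mul_of_nonneg_left ?_ H.L0
    calc ∑ i, |x i - y i| ≤ ∑ _i : Fin (k + 1), dist x y := by
          refine Finset.sum_le_sum fun i _ => ?_
          rw [← Real.dist_eq]
          exact dist_le_pi_dist x y i
      _ = ((k : ℝ) + 1) * dist x y := by
          rw [Finset.sum_const, Finset.card_univ, Fintype.card_fin, nsmul_eq_mul]
          push_cast
          ring
  exact h1.continuousOn

/-- the compact set -/
def CC (k : ℕ) (s u : ℝ) : Set (Fin (k + 1) → ℝ) :=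
  {x | s ≤ mn x ∧ mn x ≤ u ∧ ∀ i, |x i - mn x| ≤ s / 2}

theorem CC_pos {k : ℕ} {s u : ℝ} (hs : 0 < s) {x : Fin (k + 1) → ℝ} (hx : x ∈ CC k s u) (i) :
    s / 2 ≤ x i ∧ x i ≤ u + s / 2 := by
  obtain ⟨h1, h2, h3⟩ := hx
  have := abs_le.1 (h3 i)
  constructor <;> linarith

theorem CC_compact {k : ℕ} {s u : ℝ} (hs : 0 < s) : IsCompact (CC k s u) := by
  refine IsCompact.of_isClosed_subset
    (isCompact_univ_pi fun _ => isCompact_Icc (a := s / 2) (b := u + s / 2)) ?_ ?_
  · have hm := (mn_diff (k := k)).continuous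
    have e : CC k s u = {x | s ≤ mn x} ∩ ({x | mn x ≤ u} ∩ ⋂ i, {x | |x i - mn x| ≤ s / 2}) := by
      ext x
      simp [CC]
    rw [e]
    refine (isClosed_le continuous_const hm).inter ((isClosed_le hm continuous_const).inter
      (isClosed_iInter fun i => isClosed_le ?_ continuous_const))
    exact ((continuous_apply i).sub hm).abs
  · intro x hx i _
    exact CC_pos hs hx i

theorem quad {L K y : ℝ} (hK : 0 < K) : L * |y| ≤ L ^ 2 / (2 * K) + K / 2 * y ^ 2 := by
  have h1 : 0 ≤ (L - K * |y|) ^ 2 := sq_nonneg _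
  have h2 : |y| ^ 2 = y ^ 2 := sq_abs y
  have h3 : L ^ 2 / (2 * K) + K / 2 * y ^ 2 = (L ^ 2 + K ^ 2 * y ^ 2) / (2 * K) := by
    field_simp
  rw [h3, le_div_iff₀ (by positivity)]
  nlinarith

theorem upper {k : ℕ} {F : (Fin (k + 1) → ℝ) → ℝ} {M : Finset ℝ} {L : ℝ}
    (H : BlowData (k + 1) F M L) {b c K s u : ℝ} (hs : 0 < s) (hK : 0 < K)
    {x : Fin (k + 1) → ℝ} (hx : x ∈ CC k s u) (i : Fin (k + 1)) :
    F x - psi b c K x ≤ F (fun _ => mn x) - (b * mn x + c * mn x ^ 2) +
      ((k : ℝ) + 1) * (L ^ 2 / (2 * K)) - K / 2 * (x i - mn x) ^ 2 := by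
  have hm : 0 < mn x := lt_of_lt_of_le hs hx.1
  have h1 := H.lip x (fun _ => mn x) (fun i => by have := (CC_pos hs hx i).1; linarith)
    (fun _ => hm)
  have h2 : L * ∑ i, |x i - mn x| ≤ ((k : ℝ) + 1) * (L ^ 2 / (2 * K)) +
      K / 2 * ∑ i, (x i - mn x) ^ 2 := by
    calc L * ∑ i, |x i - mn x| = ∑ i, L * |x i - mn x| := by rw [Finset.mul_sum]
      _ ≤ ∑ i, (L ^ 2 / (2 * K) + K / 2 * (x i - mn x) ^ 2) :=
          Finset.sum_le_sum fun i _ => quad hK
      _ = _ := by
          rw [Finset.sum_add_distrib, Finset.sum_const, Finset.card_univ, Fintype.card_fin,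
            nsmul_eq_mul, Finset.mul_sum]
          push_cast
          ring
  have h3 : (x i - mn x) ^ 2 ≤ ∑ i, (x i - mn x) ^ 2 :=
    Finset.single_le_sum (f := fun i => (x i - mn x) ^ 2) (fun i _ => sq_nonneg _)
      (Finset.mem_univ i)
  have h4 := (abs_le.1 h1).2
  have h5 : K / 2 * (x i - mn x) ^ 2 ≤ K / 2 * ∑ i, (x i - mn x) ^ 2 :=
    mul_le_mul_of_nonneg_left h3 (by positivity)
  unfold psi
  linarith

theorem vis (hT : S_TCH) : S_VIS := by
  intro k F M L H b c s t u hs hst htu h1 h2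
  have hsu : s < u := hst.trans htu
  have hcont := lip_cont H
  set G : ℝ → ℝ := fun r => F (fun _ => r) - (b * r + c * r ^ 2) with hG
  have h1' : G s < G t := h1
  have h2' : G u < G t := h2
  -- a bound on the interval
  have hGc : ContinuousOn G (Set.Icc s u) := by
    have e1 : ContinuousOn (fun r : ℝ => F (fun _ : Fin (k + 1) => r)) (Set.Icc s u) :=
      hcont.comp (Continuous.continuousOn (by fun_prop)) (fun r hr _ => lt_of_lt_of_le hs hr.1)
    exact e1.sub (Continuous.continuousOn (by fun_prop))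
  obtain ⟨r₀, hr₀, hmax⟩ := isCompact_Icc.exists_isMaxOn (Set.nonempty_Icc.2 hsu.le) hGc
  have hA : ∀ r ∈ Set.Icc s u, G r ≤ G r₀ := fun r hr => hmax hr
  obtain ⟨δ, hδ, hδs, hδu⟩ : ∃ δ : ℝ, 0 < δ ∧ G s + δ ≤ G t ∧ G u + δ ≤ G t := by
    refine ⟨min (G t - G s) (G t - G u), lt_min (by linarith) (by linarith), ?_, ?_⟩
    · have := min_le_left (G t - G s) (G t - G u)
      linarith
    · have := min_le_right (G t - G s) (G t - G u)
      linarith
  set B : ℝ := ((k : ℝ) + 1) * L ^ 2 with hB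
  have hB0 : 0 ≤ B := by positivity
  have hA0 : 0 ≤ G r₀ - G t := by
    have := hA t ⟨hst.le, htu.le⟩
    linarith
  set K : ℝ := 1 + B / δ + 2 * (G r₀ - G t + B) / (s / 2) ^ 2 with hKdef
  have hK1 : 1 ≤ K := by
    have e1 : 0 ≤ B / δ := by positivity
    have e2 : 0 ≤ 2 * (G r₀ - G t + B) / (s / 2) ^ 2 := by positivity
    linarith
  have hK : 0 < K := by linarith
  have hK2 : ((k : ℝ) + 1) * (L ^ 2 / (2 * K)) < δ := by
    have e1 : B / δ < K := by
      have e2 : 0 ≤ 2 * (G r₀ - G t + B) / (s / 2) ^ 2 := by positivity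
      linarith
    rw [div_lt_iff₀ hδ] at e1
    have e3 : ((k : ℝ) + 1) * (L ^ 2 / (2 * K)) = B / (2 * K) := by rw [hB]; ring
    rw [e3, div_lt_iff₀ (by positivity)]
    nlinarith
  have hK3 : G r₀ + ((k : ℝ) + 1) * (L ^ 2 / (2 * K)) - K / 2 * (s / 2) ^ 2 < G t := by
    have e3 : ((k : ℝ) + 1) * (L ^ 2 / (2 * K)) = B / (2 * K) := by rw [hB]; ring
    have e4 : B / (2 * K) ≤ B := by
      rw [div_le_iff₀ (by positivity)]
      nlinarith
    have hs2 : 0 < (s / 2) ^ 2 := by positivity
    have e5 : 2 * (G r₀ - G t + B) < K * (s / 2) ^ 2 := by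
      rw [← div_lt_iff₀ hs2]
      have e1 : 0 ≤ B / δ := by positivity
      linarith
    rw [e3]
    linarith
  -- the maximum
  have hCsub : CC k s u ⊆ {x | ∀ i, 0 < x i} := fun x hx i => by
    have := (CC_pos hs hx i).1
    linarith
  have hΦ : ContinuousOn (fun x => F x - psi b c K x) (CC k s u) :=
    (hcont.mono hCsub).sub (psi_diff b c K).continuous.continuousOn
  have htC : (fun _ => t : Fin (k + 1) → ℝ) ∈ CC k s u := by
    refine ⟨?_, ?_, ?_⟩
    · rw [mn_const]; exact hst.le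
    · rw [mn_const]; exact htu.le
    · intro i
      rw [mn_const, sub_self, abs_zero]
      positivity
  obtain ⟨x, hxC, hx⟩ := (CC_compact (k := k) (u := u) hs).exists_isMaxOn ⟨_, htC⟩ hΦ
  have hxt : G t ≤ F x - psi b c K x := by
    have e1 := hx htC
    simp only [Set.mem_setOf_eq, psi_const] at e1
    exact e1
  have hub := fun i => upper H (b := b) (c := c) hs hK hxC i
  have hms : s < mn x := by
    refine lt_of_le_of_ne hxC.1 fun hne => ?_
    have e1 := hub 0
    rw [← hne] at e1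
    have e2 : 0 ≤ K / 2 * (x 0 - s) ^ 2 := by positivity
    have e3 : G s = F (fun _ => s) - (b * s + c * s ^ 2) := rfl
    linarith
  have hmu : mn x < u := by
    refine lt_of_le_of_ne hxC.2.1 fun hne => ?_
    have e1 := hub 0
    rw [hne] at e1
    have e2 : 0 ≤ K / 2 * (x 0 - u) ^ 2 := by positivity
    have e3 : G u = F (fun _ => u) - (b * u + c * u ^ 2) := rfl
    linarith
  have hρ : ∀ i, |x i - mn x| < s / 2 := by
    intro i
    refine lt_of_le_of_ne (hxC.2.2 i) fun hne => ?_
    have e1 := hub i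
    rw [← sq_abs (x i - mn x), hne] at e1
    have e3 : G (mn x) = F (fun _ => mn x) - (b * mn x + c * mn x ^ 2) := rfl
    have e4 := hA (mn x) ⟨hms.le, hmu.le⟩
    linarith
  have hxpos : ∀ i, 0 < x i := hCsub hxC
  -- near the maximum
  have hm := (mn_diff (k := k)).continuous
  have hnear : ∀ᶠ y in 𝓝 x, y ∈ CC k s u := by
    have e1 : ∀ᶠ y in 𝓝 x, s < mn y := (isOpen_lt continuous_const hm).mem_nhds hms
    have e2 : ∀ᶠ y in 𝓝 x, mn y < u := (isOpen_lt hm continuous_const).mem_nhds hmu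
    have e3 : ∀ᶠ y in 𝓝 x, ∀ i, |y i - mn y| < s / 2 := by
      rw [eventually_all]
      intro i
      exact (isOpen_lt ((continuous_apply i).sub hm).abs continuous_const).mem_nhds (hρ i)
    filter_upwards [e1, e2, e3] with y y1 y2 y3
    exact ⟨y1.le, y2.le, fun i => (y3 i).le⟩
  have htouch : ∀ᶠ y in 𝓝 x, F y ≤ F x + (psi b c K y - psi b c K x) := by
    filter_upwards [hnear] with y hy
    have e1 : F y - psi b c K y ≤ F x - psi b c K x := hx hy
    linarith
  -- apply TCH
  have hq : ∀ i, HasDerivAt (fun r => psi b c K (Function.update x i r))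
      (deriv (fun r => psi b c K (Function.update x i r)) (x i)) (x i) := by
    intro i
    apply DifferentiableAt.hasDerivAt
    exact (psi_diff b c K).differentiableAt.comp _ (hasDerivAt_update x i (x i)).differentiableAt
  have htc : ∀ i, ∀ᶠ r in 𝓝 (x i), F (Function.update x i r) ≤
      F x + (psi b c K (Function.update x i r) - psi b c K (Function.update x i (x i))) := by
    intro i
    have e1 : Tendsto (fun r => Function.update x i r) (𝓝 (x i)) (𝓝 x) := by
      have e2 : Continuous (fun r => Function.update x i r) := continuous_const.update i continuous_id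
      have e3 := e2.tendsto (x i)
      rw [Function.update_eq_self] at e3
      exact e3
    have e4 := e1.eventually htouch
    rw [Function.update_eq_self]
    exact e4
  obtain ⟨hσ, haff⟩ := hT (k + 1) F M L H x (fun i r => psi b c K (Function.update x i r)) _
    hxpos hq htc
  set σ : Fin (k + 1) → ℝ := fun i => deriv (fun r => psi b c K (Function.update x i r)) (x i)
    with hσd
  -- the diagonal direction
  have hdiag : Tendsto (fun h : ℝ => (fun i => x i + h : Fin (k + 1) → ℝ)) (𝓝 0) (𝓝 x) := by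
    have e2 : Continuous (fun h : ℝ => (fun i => x i + h : Fin (k + 1) → ℝ)) := by fun_prop
    have e3 := e2.tendsto 0
    simp only [add_zero] at e3
    exact e3
  have hkey : ∀ᶠ h in 𝓝 (0 : ℝ), ((∑ i, σ i) - (b + 2 * c * mn x)) * h ≤ c * h ^ 2 := by
    filter_upwards [hdiag.eventually haff, hdiag.eventually htouch] with h e1 e2
    rw [e1, psi_add] at e2
    have e3 : ∑ i, σ i * ((x i + h) - x i) = (∑ i, σ i) * h := by
      rw [Finset.sum_mul]
      refine Finset.sum_congr rfl fun i _ => ?_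
      ring
    rw [e3] at e2
    linarith
  obtain ⟨η, hη, hball⟩ := Metric.eventually_nhds_iff.1 hkey
  set τ : ℝ := (∑ i, σ i) - (b + 2 * c * mn x) with hτ
  have hc1 : ∀ h, 0 < h → h < η → τ ≤ c * h := by
    intro h h0 h1
    have e1 := hball (y := h) (by rw [Real.dist_eq, sub_zero, abs_of_pos h0]; exact h1)
    have e2 : τ * h ≤ (c * h) * h := by linarith [sq h]
    exact le_of_mul_le_mul_right e2 h0
  have hc2 : ∀ h, 0 < h → h < η → -τ ≤ c * h := by
    intro h h0 h1
    have e1 := hball (y := -h) (by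
      rw [Real.dist_eq, sub_zero, abs_neg, abs_of_pos h0]; exact h1)
    have e2 : (-τ) * h ≤ (c * h) * h := by
      have : c * (-h) ^ 2 = (c * h) * h := by ring
      rw [this] at e1
      linarith
    exact le_of_mul_le_mul_right e2 h0
  have hc : 0 ≤ c := by
    have e1 := hc1 (η / 2) (by positivity) (by linarith)
    have e2 := hc2 (η / 2) (by positivity) (by linarith)
    by_contra hneg
    push Not at hneg
    have : c * (η / 2) < 0 := mul_neg_of_neg_of_pos hneg (by positivity)
    linarith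
  have habs : |τ| = 0 := by
    by_contra hne
    have hpos : 0 < |τ| := lt_of_le_of_ne (abs_nonneg _) (Ne.symm hne)
    have hle : ∀ h, 0 < h → h < η → |τ| ≤ c * h := fun h h0 h1 =>
      abs_le.2 ⟨by have := hc2 h h0 h1; linarith, hc1 h h0 h1⟩
    set h : ℝ := min (η / 2) (|τ| / (2 * (c + 1))) with hh
    have h0 : 0 < h := lt_min (by positivity) (by positivity)
    have h3 : h < η := lt_of_le_of_lt (min_le_left _ _) (by linarith)
    have h4 := hle h h0 h3
    have h5 : h ≤ |τ| / (2 * (c + 1)) := min_le_right _ _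
    have h6 : c * h ≤ (c + 1) * (|τ| / (2 * (c + 1))) := by
      calc c * h ≤ (c + 1) * h := by nlinarith
        _ ≤ (c + 1) * (|τ| / (2 * (c + 1))) := mul_le_mul_of_nonneg_left h5 (by positivity)
    have h7 : (c + 1) * (|τ| / (2 * (c + 1))) = |τ| / 2 := by
      have : c + 1 ≠ 0 := by positivity
      field_simp
    linarith
  have hτ0 : τ = 0 := abs_eq_zero.1 habs
  refine ⟨hc, mn x, hms, hmu, σ, hσ, ?_⟩
  linarith

end Pool.Agent.Helper82.GO
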